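import Pool.Agent.W492.KC.Defs

/-! Splitting off the even and odd parts. -/

open CategoryTheory Limits

namespace Pool.Agent.W778.KC

open Pool.Agent.W492.KC

universe v u v' u'

/-- Lifting of idempotents: Newton iteration. -/
theorem lift_idem {R : Type*} [Ring R] : ∀ (m : ℕ) (x : R), (x * x - x) ^ (m + 1) = 0 →
    ∃ e c : R, e * e = e ∧ e - x = c * (x * x - x) := by
  intro m
  induction m using Nat.strong_induction_on with
  | _ m ih =>
    intro x hx
    rcases Nat.eq_zero_or_pos m with rfl | hm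
    · refine ⟨x, 0, ?_, by simp⟩
      rw [zero_add, pow_one, sub_eq_zero] at hx
      exact hx
    · obtain ⟨k, rfl⟩ : ∃ k, m = k + 1 := ⟨m - 1, by omega⟩
      have e1 : (3 * x * x - 2 * x * x * x) * (3 * x * x - 2 * x * x * x) -
          (3 * x * x - 2 * x * x * x) = (x * x - x) * (x * x - x) * (4 * (x * x - x) - 3) := by
        noncomm_ring
      have e2 : (3 * x * x - 2 * x * x * x) - x = (1 - 2 * x) * (x * x - x) := by
        noncomm_ring
      obtain ⟨e, c, he, hc⟩ := ih k (by omega) (3 * x * x - 2 * x * x * x) (by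
        rw [e1]
        have hcom : Commute ((x * x - x) * (x * x - x)) (4 * (x * x - x) - 3) := by
          unfold Commute SemiconjBy
          noncomm_ring
        rw [hcom.mul_pow]
        have : ((x * x - x) * (x * x - x)) ^ (k + 1) = 0 := by
          rw [← pow_two, ← pow_mul]
          have h2 : 2 * (k + 1) = (k + 1 + 1) + k := by ring
          rw [h2, pow_add, hx, zero_mul]
        rw [this, zero_mul])
      refine ⟨e, c * ((x * x - x) * (4 * (x * x - x) - 3)) + (1 - 2 * x), he, ?_⟩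
      rw [e1] at hc
      have : e - x = (e - (3 * x * x - 2 * x * x * x)) + ((3 * x * x - 2 * x * x * x) - x) := by
        abel
      rw [this, hc, e2]
      have h3 : (x * x - x) * (x * x - x) * (4 * (x * x - x) - 3) =
          ((x * x - x) * (4 * (x * x - x) - 3)) * (x * x - x) := by
        noncomm_ring
      rw [h3, add_mul, mul_assoc c]

section

variable {T : Type u} [Category.{v} T] [HasShift T ℤ] [Preadditive T]
  [∀ n : ℤ, (shiftFunctor T n).Additive]
  {𝒜 : Type u'} [Category.{v'} 𝒜] [Abelian 𝒜] (H : T ⥤ 𝒜) [H.Additive]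

/-- The action of the endomorphisms on the cohomology in degree `n`. -/
def rho (X : T) (n : ℤ) : End X →+* End (H.obj (X⟦n⟧)) where
  toFun f := H.map ((f : X ⟶ X)⟦n⟧')
  map_one' := by
    show H.map ((𝟙 X)⟦n⟧') = 𝟙 _
    rw [(shiftFunctor T n).map_id, H.map_id]
  map_mul' f g := by
    show H.map (((g : X ⟶ X) ≫ (f : X ⟶ X))⟦n⟧') = H.map ((g : X ⟶ X)⟦n⟧') ≫ H.map ((f : X ⟶ X)⟦n⟧')
    rw [(shiftFunctor T n).map_comp, H.map_comp]
  map_zero' := by
    show H.map ((0 : X ⟶ X)⟦n⟧') = 0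
    rw [Functor.map_zero, Functor.map_zero]
  map_add' f g := by
    show H.map (((f : X ⟶ X) + (g : X ⟶ X))⟦n⟧') = H.map ((f : X ⟶ X)⟦n⟧') + H.map ((g : X ⟶ X)⟦n⟧')
    rw [Functor.map_add, Functor.map_add]

variable {H}

theorem rho_even {X : T} {P : End X} (hP : Parity H (X := X) P) (n : ℤ) :
    rho H X (2 * n) P = 1 := hP.1 n

theorem rho_odd {X : T} {P : End X} (hP : Parity H (X := X) P) (n : ℤ) :
    rho H X (2 * n + 1) P = -1 := hP.2 n

theorem isZero_of_rho {X A : T} {n : ℤ} {e : End X} (he : rho H X n e = 0) (i : A ⟶ X) (r : X ⟶ A)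
    (h1 : i ≫ r = 𝟙 A) (h2 : r ≫ i = e) : IsZero (H.obj (A⟦n⟧)) := by
  rw [IsZero.iff_id_eq_zero]
  have h3 : 𝟙 A = i ≫ (e : X ⟶ X) ≫ r := by
    rw [← h2, Category.assoc, h1, Category.comp_id, h1]
  have h4 : 𝟙 (H.obj (A⟦n⟧)) = H.map ((𝟙 A)⟦n⟧') := by
    rw [(shiftFunctor T n).map_id, H.map_id]
  have h5 : H.map ((e : X ⟶ X)⟦n⟧') = 0 := he
  rw [h4, h3, (shiftFunctor T n).map_comp, (shiftFunctor T n).map_comp, H.map_comp, H.map_comp, h5,
    zero_comp, comp_zero]

end

theorem exists_split {T : Type u} [Category.{v} T] [HasZeroObject T] [HasShift T ℤ]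
    [Preadditive T] [∀ n : ℤ, (shiftFunctor T n).Additive] [HasBinaryBiproducts T]
    [IsIdempotentComplete T] {𝒜 : Type u'} [Category.{v'} 𝒜] [Abelian 𝒜] {H : T ⥤ 𝒜} [H.Additive]
    (F : Type) [Field F] [CharZero F] [Linear F T] {X : T} (P : End X)
    (hP : Parity H (X := X) P) (hnil : IsNilpotent (P * P - 1)) :
    ∃ A B : T, Even H A ∧ Odd H B ∧ Nonempty (Retract A X) ∧ Nonempty (Retract B X) ∧
      Nonempty (X ≅ A ⊞ B) := by
  set h : End X := algebraMap F (End X) (2 : F)⁻¹ with hh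
  have h2 : h * 2 = 1 := by
    have : (2 : End X) = algebraMap F (End X) 2 := (map_ofNat (algebraMap F (End X)) 2).symm
    rw [this, hh, ← map_mul, inv_mul_cancel₀ two_ne_zero, map_one]
  have h2' : 2 * h = 1 := by
    have : (2 : End X) = algebraMap F (End X) 2 := (map_ofNat (algebraMap F (End X)) 2).symm
    rw [this, hh, ← map_mul, mul_inv_cancel₀ two_ne_zero, map_one]
  have hc : ∀ y : End X, h * y = y * h := fun y => Algebra.commutes _ _
  obtain ⟨x, hx⟩ : ∃ x : End X, x = h * (1 + P) := ⟨_, rfl⟩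
  have hxx : x * x - x = h * h * (P * P - 1) := by
    have e1 : x * x = h * h * ((1 + P) * (1 + P)) := by
      rw [hx, mul_assoc, ← mul_assoc (1 + P) h, ← hc (1 + P)]
      simp only [mul_assoc]
    have e2 : x = h * h * (2 * (1 + P)) := by
      rw [hx, mul_assoc, ← mul_assoc h 2, h2, one_mul]
    rw [e1]
    nth_rewrite 1 [e2]
    rw [← mul_sub]
    congr 1
    noncomm_ring
  obtain ⟨m, hm⟩ := hnil
  have hxnil : (x * x - x) ^ (m + 1) = 0 := by
    rw [hxx]
    have hcom : Commute (h * h) (P * P - 1) := by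
      unfold Commute SemiconjBy
      rw [mul_assoc, hc (P * P - 1), ← mul_assoc, hc (P * P - 1), mul_assoc]
    rw [hcom.mul_pow, pow_succ (P * P - 1), hm, zero_mul, mul_zero]
  obtain ⟨e, c, he, hec⟩ := lift_idem m x hxnil
  have key : ∀ n : ℤ, rho H X n (x * x - x) = 0 → rho H X n e = rho H X n x := by
    intro n hn
    have h3 := congrArg (rho H X n) hec
    rw [map_sub, map_mul, hn, mul_zero, sub_eq_zero] at h3
    exact h3
  have hev : ∀ n : ℤ, rho H X (2 * n) e = 1 := by
    intro n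
    have h3 : rho H X (2 * n) x = 1 := by
      rw [hx, map_mul, map_add, map_one, rho_even hP, one_add_one_eq_two]
      have := congrArg (rho H X (2 * n)) h2
      rw [map_mul, map_one, map_ofNat] at this
      exact this
    rw [key _ (by rw [map_sub, map_mul, h3, mul_one, sub_self]), h3]
  have hod : ∀ n : ℤ, rho H X (2 * n + 1) e = 0 := by
    intro n
    have h3 : rho H X (2 * n + 1) x = 0 := by
      rw [hx, map_mul, map_add, map_one, rho_odd hP, add_neg_cancel, mul_zero]
    rw [key _ (by rw [map_sub, map_mul, h3, mul_zero, sub_self]), h3]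
  obtain ⟨A, iA, rA, hA1, hA2⟩ := IsIdempotentComplete.idempotents_split X (e : X ⟶ X) he
  have he' : ((1 - e : End X) * (1 - e)) = 1 - e := by
    rw [mul_sub, sub_mul, sub_mul, he]
    simp
  obtain ⟨B, iB, rB, hB1, hB2⟩ := IsIdempotentComplete.idempotents_split X ((1 - e : End X) : X ⟶ X) he'
  have hsum : rA ≫ iA + rB ≫ iB = 𝟙 X := by
    rw [hA2, hB2]
    show (e + (1 - e) : End X) = 1
    abel
  have hAB : iA ≫ rB = 0 := by
    have h3 : iA ≫ rB = iA ≫ (rA ≫ iA) ≫ (rB ≫ iB) ≫ rB := by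
      rw [Category.assoc rB iB, hB1, Category.comp_id, Category.assoc rA, ← Category.assoc iA rA, hA1,
        Category.id_comp]
    have h4 : (rA ≫ iA) ≫ (rB ≫ iB) = 0 := by
      rw [hA2, hB2]
      show ((1 - e) * e : End X) = 0
      rw [sub_mul, he, one_mul, sub_self]
    rw [h3, ← Category.assoc (rA ≫ iA), h4, zero_comp, comp_zero]
  have hBA : iB ≫ rA = 0 := by
    have h3 : iB ≫ rA = iB ≫ (rB ≫ iB) ≫ (rA ≫ iA) ≫ rA := by
      rw [Category.assoc rA iA, hA1, Category.comp_id, Category.assoc rB, ← Category.assoc iB rB, hB1,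
        Category.id_comp]
    have h4 : (rB ≫ iB) ≫ (rA ≫ iA) = 0 := by
      rw [hA2, hB2]
      show (e * (1 - e) : End X) = 0
      rw [mul_sub, he, mul_one, sub_self]
    rw [h3, ← Category.assoc (rB ≫ iB), h4, zero_comp, comp_zero]
  refine ⟨A, B, ?_, ?_, ⟨⟨iA, rA, hA1⟩⟩, ⟨⟨iB, rB, hB1⟩⟩, ⟨⟨biprod.lift rA rB, biprod.desc iA iB, ?_, ?_⟩⟩⟩
  · intro n
    exact isZero_of_rho (hod n) iA rA hA1 hA2
  · intro n
    exact isZero_of_rho (e := 1 - e) (by rw [map_sub, map_one, hev, sub_self]) iB rB hB1 hB2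
  · rw [biprod.lift_desc, hsum]
  · ext
    · simp [hA1]
    · simp [hAB]
    · simp [hBA]
    · simp [hB1]

theorem nilp_of_alg {T : Type u} [Category.{v} T] [HasShift T ℤ]
    [Preadditive T] [∀ n : ℤ, (shiftFunctor T n).Additive]
    {𝒜 : Type u'} [Category.{v'} 𝒜] [Abelian 𝒜] {H : T ⥤ 𝒜} [H.Additive]
    (F : Type) [Field F] [CharZero F] [Linear F T] {X : T} (P : End X)
    (hP : Parity H (X := X) P)
    (hiso : ∀ g : X ⟶ X, (∀ n : ℤ, IsIso (H.map (g⟦n⟧'))) → IsIso g)
    (f : Polynomial F) (hf : f ≠ 0) (h : Polynomial.aeval P f = 0) : IsNilpotent (P * P - 1) := by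
  open Polynomial in
  obtain ⟨q, hq, hqd⟩ := Polynomial.exists_eq_pow_rootMultiplicity_mul_and_not_dvd f hf 1
  have hq0 : q ≠ 0 := by rintro rfl; exact hqd (dvd_zero _)
  obtain ⟨g, hg, hgd⟩ := Polynomial.exists_eq_pow_rootMultiplicity_mul_and_not_dvd q hq0 (-1)
  set a := f.rootMultiplicity 1
  set b := q.rootMultiplicity (-1)
  have hg1 : g.eval 1 ≠ 0 := by
    intro h0
    apply hqd
    rw [hg]
    exact Dvd.dvd.mul_left (Polynomial.dvd_iff_isRoot.2 h0) _
  have hg2 : g.eval (-1) ≠ 0 := fun h0 => hgd (Polynomial.dvd_iff_isRoot.2 h0)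
  have hev : ∀ y : F, ∃ w : End X, Polynomial.aeval P g =
      algebraMap F (End X) (g.eval y) + (P - algebraMap F (End X) y) * w := by
    intro y
    obtain ⟨w, hw⟩ := Polynomial.X_sub_C_dvd_sub_C_eval (a := y) (p := g)
    refine ⟨Polynomial.aeval P w, ?_⟩
    have h1 := congrArg (Polynomial.aeval P) hw
    rw [map_sub, map_mul, map_sub, Polynomial.aeval_C, Polynomial.aeval_C, Polynomial.aeval_X,
      sub_eq_iff_eq_add] at h1
    rw [h1, add_comm]
  have hunit : ∀ y : F, y ≠ 0 → IsUnit (algebraMap F (End X) y) := fun y hy =>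
    (IsUnit.mk0 y hy).map (algebraMap F (End X))
  have hI : IsIso (Polynomial.aeval P g : X ⟶ X) := by
    refine hiso _ fun n => ?_
    have hu : IsUnit (rho H X n (Polynomial.aeval P g)) := by
      rcases Int.even_or_odd' n with ⟨k, rfl | rfl⟩
      · obtain ⟨w, hw⟩ := hev 1
        rw [hw, map_add, map_mul, map_sub, rho_even hP, map_one, map_one, sub_self, zero_mul,
          add_zero]
        exact (hunit _ hg1).map _
      · obtain ⟨w, hw⟩ := hev (-1)
        rw [hw, map_add, map_mul, map_sub, rho_odd hP, map_neg, map_one, map_neg, map_one, sub_self,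
          zero_mul, add_zero]
        exact (hunit _ hg2).map _
    exact (isUnit_iff_isIso _).1 hu
  have hU : IsUnit (Polynomial.aeval P g : End X) := (isUnit_iff_isIso _).2 hI
  have hprod : (P - 1) ^ a * (P + 1) ^ b = 0 := by
    rw [hq, hg, map_mul, map_mul, map_pow, map_pow, map_sub, map_sub, Polynomial.aeval_X,
      Polynomial.aeval_C, Polynomial.aeval_C, map_neg, map_one, sub_neg_eq_add, ← mul_assoc] at h
    exact (hU.mul_left_eq_zero).1 h
  have hcom : Commute (P - 1) (P + 1) := by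
    unfold Commute SemiconjBy
    noncomm_ring
  refine ⟨a + b, ?_⟩
  have e1 : P * P - 1 = (P - 1) * (P + 1) := by noncomm_ring
  rw [e1, hcom.mul_pow, pow_add, pow_add]
  have e2 : (P - 1) ^ a * (P - 1) ^ b * ((P + 1) ^ a * (P + 1) ^ b) =
      (P - 1) ^ b * ((P - 1) ^ a * (P + 1) ^ b) * (P + 1) ^ a := by
    rw [← pow_add, ← pow_add, add_comm a b, pow_add (P - 1), add_comm b a, add_comm a b, pow_add (P + 1)]
    simp only [mul_assoc]
  rw [e2, hprod, mul_zero, zero_mul]

end Pool.Agent.W778.KC
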